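import Pool.Agent.THF.K.Defs
import Pool.Agent.THF.K.Ex

/-!
# THF/F-ExA: an auxiliary element for the exact sign (paper section 9)

At every place of `V` one of a nonsquare unit `e` and a uniformizer `p` works (according to the
parity of the order of `x`); the element is obtained by weak approximation from a totally negative
element which is a local square at the places not away from `T`.
-/

namespace Pool.Agent.THF

open NumberField IsDedekindDomain Pool.Agent.HWR Pool.Agent.QD Pool.Agent.QD.In Pool.Agent.LD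
  Pool.Agent.MD

private theorem exa_neg {K : Type} [Field K] [NumberField K] {w : HeightOneSpectrum (𝓞 K)} {x : Kˣ}
    (hx : uK w x = -1) : ¬ LSq w x := by
  intro h
  have h1 : uK w x = 1 := uK_of_LSq h
  rw [hx] at h1
  norm_num at h1

private theorem exa_even {K : Type} [Field K] [NumberField K] {w : HeightOneSpectrum (𝓞 K)}
    {e : Kˣ} (he : uK w e = -1) : Even (ordK w e) := by
  rw [← Int.not_odd_iff_even]
  intro h
  have h2 : uK w e = 0 := uK_eq_zero_iff.2 h
  rw [he] at h2
  norm_num at h2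

private theorem exa_mul {K : Type} [Field K] [NumberField K] (w : HeightOneSpectrum (𝓞 K))
    (x y : Kˣ) : ordK w (x * y) = ordK w x + ordK w y := Pool.Agent.QD.ordK_mul w x y

/-- the local element -/
private theorem exa_loc {K : Type} [Field K] [NumberField K] {T : Finset ℕ} (h2 : 2 ∈ T)
    {w : HeightOneSpectrum (𝓞 K)} (hw : Away K T w) (x : Kˣ) :
    ∃ y : Kˣ, ∀ a : Kˣ, LSq w (a / y) → ¬ LSq w a ∧ ¬ LSq w (a * x) := by
  have h2w : (2 : 𝓞 K) ∉ w.asIdeal := by
    have := hw 2 h2
    exact_mod_cast this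
  obtain ⟨e, he⟩ := Pool.Agent.LD.exists_nonres w h2w
  obtain ⟨p, hp⟩ := Pool.Agent.QD.N2.exists_ordK w 1
  rcases Int.even_or_odd (ordK w x) with hx | hx
  · refine ⟨p, fun a ha => ?_⟩
    have h3 : Even (ordK w (a / p)) := even_of_LSq ha
    have h4 : ordK w a = ordK w (a / p) + ordK w p := by
      rw [← exa_mul, div_mul_cancel]
    have h5 : Odd (ordK w a) := by
      rw [h4, hp]
      exact h3.add_odd odd_one
    refine ⟨fun h => ?_, fun h => ?_⟩
    · exact (Int.not_even_iff_odd.2 h5) (even_of_LSq h)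
    · have h6 := even_of_LSq h
      rw [exa_mul] at h6
      exact (Int.not_even_iff_odd.2 (h5.add_even hx)) h6
  · refine ⟨e, fun a ha => ?_⟩
    have h3 : Even (ordK w (a / e)) := even_of_LSq ha
    have h4 : ordK w a = ordK w (a / e) + ordK w e := by
      rw [← exa_mul, div_mul_cancel]
    have h5 : Even (ordK w a) := by
      rw [h4]
      exact h3.add (exa_even he)
    refine ⟨fun h => ?_, fun h => ?_⟩
    · have h6 := LSq_div h ha
      rw [div_div_cancel] at h6
      exact exa_neg he h6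
    · have h6 := even_of_LSq h
      rw [exa_mul] at h6
      exact (Int.not_even_iff_odd.2 (h5.add_odd hx)) h6

theorem exists_ax (K : Type) [Field K] [NumberField K] (T : Finset ℕ) (hTp : ∀ p ∈ T, p.Prime)
    (h2 : 2 ∈ T) (V : Finset (HeightOneSpectrum (𝓞 K))) (hV : ∀ v ∈ V, Away K T v) (x : Kˣ) :
    ∃ a : Kˣ, KN V a ∧ (∀ v ∈ V, ¬ LSq v (a * x)) ∧
      ∀ v : HeightOneSpectrum (𝓞 K), ¬ Away K T v → LSq v a := by
  classical
  obtain ⟨d, hd1, hd2⟩ := exists_KN K T hTp h2 V hV
  have hfin := not_away_finite K T hTp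
  have hdis : ∀ v ∈ V, v ∉ hfin.toFinset := by
    intro v hv hv'
    exact (hfin.mem_toFinset.1 hv') (hV v hv)
  have hex : ∀ v : HeightOneSpectrum (𝓞 K), ∃ y : Kˣ, v ∈ V → ∀ a : Kˣ, LSq v (a / y) →
      ¬ LSq v a ∧ ¬ LSq v (a * x) := by
    intro v
    by_cases hv : v ∈ V
    · obtain ⟨y, hy⟩ := exa_loc h2 (hV v hv) x
      exact ⟨y, fun _ => hy⟩
    · exact ⟨1, fun h => absurd h hv⟩
  choose y hy using hex
  obtain ⟨a, ha, ha'⟩ := approx_many hfin.toFinset V hdis d y
  have ha1 := mem_HSub.1 ha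
  refine ⟨a, ⟨fun v hv => (hy v hv a (ha' v hv)).1, fun φ => ?_⟩,
    fun v hv => (hy v hv a (ha' v hv)).2, fun v hv => ?_⟩
  · have h6 := ha1.2 φ
    have h7 := hd1.2 φ
    rw [Units.val_div_eq_div_val, map_div₀] at h6
    by_contra hcon
    push Not at hcon
    have h8 := div_nonpos_of_nonneg_of_nonpos hcon h7.le
    linarith
  · have h6 := LSq_mul (ha1.1 v (hfin.mem_toFinset.2 hv)) (hd2 v hv)
    rwa [div_mul_cancel] at h6

end Pool.Agent.THF
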