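import Pool.Agent.THF.F.Sgn
import Pool.Agent.THF.I.Vk
import Pool.Agent.THF.L.MerN

/-!
# THF/F-Main: THEOREM TH
-/

namespace Pool.Agent.THF

open NumberField IsDedekindDomain Pool.Agent.HWR Pool.Agent.QD Pool.Agent.QD.In Pool.Agent.LD
  Pool.Agent.MD

theorem main {φ : ℕ → ℕ} {T : Finset ℕ} (hTp : ∀ p ∈ T, p.Prime)
    (hT : ∀ p : ℕ, p.Prime → p < 101 → p ∈ T) (D : LocData T) {a : ℕ → ℝ}
    (ha : ∀ q : ℕ, |a q| ≤ 2 * Real.sqrt q) (hfr : FrobRel T a) (hQ : D.HW a ℚ)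
    (H : ∀ (F : Type) [Field F] [NumberField F], Thin φ T F → D.HW a F) :
    (∀ (K : Type) [Field K] [NumberField K], HWpm D a K) ∧
      ∀ (K : Type) [Field K] [NumberField K] (x : Kˣ), ¬ IsSquare x →
        ((∀ φ : K →+* ℝ, 0 < φ (x : K)) ∨ ∀ φ : K →+* ℝ, φ (x : K) < 0) →
        ∀ (F : Type) [Field F] [NumberField F] [Algebra K F] (θ : F), Module.finrank K F = 2 →
          θ ^ 2 = algebraMap K F (x : K) → D.HW a F := by
  have hG : Glob D a := glob_of hTp D H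
  have hM : ∀ (F : Type) [Field F] [NumberField F], ∃ N : ℕ, 0 < N ∧ MERn D a F N :=
    fun F _ _ => mern hTp hT D ha hQ H F
  refine ⟨fun K _ _ => hwpm_all hTp hT D ha hfr hG hM K, ?_⟩
  intro K _ _ x hx hs F _ _ _ θ hd hθ
  rcases hs with hs | hs
  · exact sgn_pos hTp hT D ha hfr hG hM hx hs F θ hd hθ
  · exact sgn_neg hTp hT D ha hfr hG hM hx hs F θ hd hθ

end Pool.Agent.THF
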