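import Pool.Agent.THF.E.Fin
import Pool.Agent.THF.R.End
import Pool.Agent.THF.R.Mer
import Pool.Agent.THF.O.Int
import Pool.Agent.THF.K.St1

/-!
# THF/F-Pm: Hasse-Weil up to sign for all number fields

The completed function continues to `Re s > 1` (`step1`), it is meromorphic (`merk`, with the
integrality `intO` of the orders on the central line), it has no poles there (`no_pole`), and so
it is entire (`hwpm_of_nopole`).
-/

namespace Pool.Agent.THF

open NumberField IsDedekindDomain Pool.Agent.HWR Pool.Agent.QD Pool.Agent.QD.In Pool.Agent.LD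
  Pool.Agent.MD

theorem hwpm_all {T : Finset ℕ} (hTp : ∀ p ∈ T, p.Prime)
    (hT : ∀ p : ℕ, p.Prime → p < 101 → p ∈ T) (D : LocData T) {a : ℕ → ℝ}
    (ha : ∀ q : ℕ, |a q| ≤ 2 * Real.sqrt q) (hfr : FrobRel T a) (hG : Glob D a)
    (hM : ∀ (F : Type) [Field F] [NumberField F], ∃ N : ℕ, 0 < N ∧ MERn D a F N)
    (K : Type) [Field K] [NumberField K] : HWpm D a K := by
  have hR : RH D a K := step1 hTp hT D ha hfr hG K
  obtain ⟨N, hN, hMN⟩ := hM K
  have hint : ∀ z : ℂ, z.re = 1 → ∃ k : ℤ, LogO (RF D a K) z k :=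
    fun z hz => intO hTp hT D ha hfr hG K hN hMN hz
  have hMk : MERk D a K := merk D hTp hT ha hR hN hMN hint
  exact hwpm_of_nopole D hTp hT ha hR hMk hN hMN
    (fun z o hz h0 => no_pole hTp hT D ha hfr hG hM hz K h0)

end Pool.Agent.THF
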