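import Pool.Agent.THF.F.Pm
import Pool.Agent.THF.F.ExA
import Pool.Agent.THF.K.Rel43

/-!
# THF/F-Sgn: the exact sign (paper section 9)

`sgn_of`: with `La = K(√z)`, `M = K(√x, √z)`, `F' = K(√(x z))` the relation `Rel T [K, K, M] [La, F, F']` (`rel43_w`) gives
`w K ^ 2 * w M = w La * w F * w F'` and `Lam K ^ 2 * Lam M = Lam La * Lam F * Lam F'`; all functions are entire with a functional
equation, the sign of the one of `K` does not matter (it is squared), so the one of `F` is determined (`sgn_fe`).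
`sgn_pos`, `sgn_neg`: the auxiliary element `z` is given by `exists_ax`; `x z` is totally negative and locally no square at `V`,
respectively totally positive (or a square, and then `F = K(√z)`).
-/

namespace Pool.Agent.THF

open NumberField IsDedekindDomain Pool.Agent.HWR Pool.Agent.QD Pool.Agent.QD.In Pool.Agent.LD
  Pool.Agent.MD

/-- the identity theorem for entire functions which agree on a half plane -/
private theorem sgn_id {f g : ℂ → ℂ} (hf : Differentiable ℂ f) (hg : Differentiable ℂ g)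
    (h : ∀ s : ℂ, 3 / 2 < s.re → f s = g s) : ∀ s, f s = g s := by
  have a1 : AnalyticOnNhd ℂ f Set.univ := fun z _ => hf.analyticAt z
  have a2 : AnalyticOnNhd ℂ g Set.univ := fun z _ => hg.analyticAt z
  have h1 : f = g := by
    refine AnalyticOnNhd.eq_of_eventuallyEq (z₀ := 2) a1 a2 ?_
    have h2 : {s : ℂ | 3 / 2 < s.re} ∈ nhds (2 : ℂ) :=
      (isOpen_lt continuous_const Complex.continuous_re).mem_nhds (by norm_num)
    filter_upwards [h2] with s hs
    exact h s hs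
  exact fun s => congrFun h1 s

private theorem sgn_sub (s : ℂ) : 2 - (2 - s) = s := by ring

/-- the algebra of the signs -/
private theorem sgn_alg {wK wM wL wF wG : ℂ} (hK : wK = 1 ∨ wK = -1) (hM : wM = 1 ∨ wM = -1)
    (hL : wL = 1 ∨ wL = -1) (hF : wF = 1 ∨ wF = -1) (hG : wG = 1 ∨ wG = -1)
    (h : wK * (wK * (wM * 1)) = wL * (wF * (wG * 1))) : wM * wL * wG = wF := by
  rcases hK with rfl | rfl <;> rcases hM with rfl | rfl <;> rcases hL with rfl | rfl <;>
    rcases hF with rfl | rfl <;> rcases hG with rfl | rfl <;>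
    first
      | (exfalso; norm_num at h; done)
      | norm_num

private theorem sgn_sq {w : ℂ} (h : w = 1 ∨ w = -1) : w * w = 1 := by
  rcases h with rfl | rfl <;> norm_num

/-- the functional equation of the fourth function -/
private theorem sgn_fe {k μ α β χ : ℂ → ℂ} (hχ : Differentiable ℂ χ) {wM wL wF wG : ℂ}
    (hM : wM = 1 ∨ wM = -1) (hL : wL = 1 ∨ wL = -1) (hF : wF = 1 ∨ wF = -1)
    (hG : wG = 1 ∨ wG = -1) (hw : wM * wL * wG = wF)
    (hk : (∀ s : ℂ, k s = k (2 - s)) ∨ ∀ s : ℂ, k s = -k (2 - s))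
    (hμ : ∀ s : ℂ, μ s = wM * μ (2 - s)) (hα : ∀ s : ℂ, α s = wL * α (2 - s))
    (hβ : ∀ s : ℂ, β s = wG * β (2 - s)) (hrel : ∀ s : ℂ, k s ^ 2 * μ s = α s * χ s * β s)
    (hα0 : ∀ s : ℂ, 3 / 2 < s.re → α s ≠ 0) (hβ0 : ∀ s : ℂ, 3 / 2 < s.re → β s ≠ 0) :
    ∀ s : ℂ, χ s = wF * χ (2 - s) := by
  have hk2 : ∀ s : ℂ, k (2 - s) ^ 2 = k s ^ 2 := by
    intro s
    rcases hk with h | h
    · rw [h s]
    · rw [h s]
      ring
  have hM2 := sgn_sq hM
  have hL2 := sgn_sq hL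
  have hF2 := sgn_sq hF
  have hG2 := sgn_sq hG
  have h1 : ∀ s : ℂ, 3 / 2 < s.re → wF * χ s = χ (2 - s) := by
    intro s hs
    have e1 := hrel s
    have e2 := hrel (2 - s)
    have e3 := hμ s
    have e4 := hα s
    have e5 := hβ s
    have hα1 := hα0 s hs
    have hβ1 := hβ0 s hs
    rw [hk2 s] at e2
    have e6 : α (2 - s) = wL * α s := by
      rw [e4]
      linear_combination (-1 : ℂ) * α (2 - s) * hL2
    have e7 : β (2 - s) = wG * β s := by
      rw [e5]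
      linear_combination (-1 : ℂ) * β (2 - s) * hG2
    rw [e6, e7] at e2
    have e8 : α s * β s * (wF * χ s - χ (2 - s)) = 0 := by
      have e9 : wM * (α s * χ s * β s) = wL * α s * χ (2 - s) * (wG * β s) := by
        rw [← e2, ← e1, e3]
        linear_combination k s ^ 2 * μ (2 - s) * hM2
      have e10 : wL * wG * (wM * (α s * χ s * β s)) = α s * β s * χ (2 - s) := by
        rw [e9]
        linear_combination α s * β s * χ (2 - s) * (wG * wG * hL2 + hG2)
      rw [← hw]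
      linear_combination e10
    rcases mul_eq_zero.1 e8 with h | h
    · rcases mul_eq_zero.1 h with h | h
      · exact absurd h hα1
      · exact absurd h hβ1
    · exact sub_eq_zero.1 h
  have h2 : ∀ s : ℂ, wF * χ s = χ (2 - s) := by
    refine sgn_id (hχ.const_mul wF) ?_ h1
    exact hχ.comp (by fun_prop : Differentiable ℂ fun s : ℂ => 2 - s)
  intro s
  have h3 := h2 (2 - s)
  rw [sgn_sub] at h3
  exact h3.symm

private theorem sgn_two {K : Type} [Field K] [NumberField K] {V : Finset (HeightOneSpectrum (𝓞 K))}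
    (hne : V.Nonempty) {z : Kˣ} (hz : ∀ v ∈ V, ¬ LSq v z) : ¬ IsSquare z := by
  rintro ⟨y, rfl⟩
  obtain ⟨v, hv⟩ := hne
  refine hz v hv ?_
  have h := LSq_sq v y
  rwa [sq] at h

private theorem sgn_unit {K : Type} [Field K] {x : Kˣ} (hx : ¬ IsSquare x) : ¬ IsSquare (x : K) := by
  rintro ⟨y, hy⟩
  have hy0 : y ≠ 0 := by
    rintro rfl
    rw [mul_zero] at hy
    exact x.ne_zero hy
  refine hx ⟨Units.mk0 y hy0, Units.ext ?_⟩
  rw [hy, Units.val_mul, Units.val_mk0]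

variable {T : Finset ℕ} (hTp : ∀ p ∈ T, p.Prime)
  (hT : ∀ p : ℕ, p.Prime → p < 101 → p ∈ T) (D : LocData T) {a : ℕ → ℝ}
  (ha : ∀ q : ℕ, |a q| ≤ 2 * Real.sqrt q) (hfr : FrobRel T a) (hG : Glob D a)
  (hM : ∀ (F : Type) [Field F] [NumberField F], ∃ N : ℕ, 0 < N ∧ MERn D a F N)
  {K : Type} [Field K] [NumberField K]

include hTp hT ha hfr hG hM

theorem sgn_of {V : Finset (HeightOneSpectrum (𝓞 K))} (hne : V.Nonempty) (HN : HWN D a V)
    (H4 : HWN4 D a V) {x z : Kˣ} (hx : ¬ IsSquare x) (hz : KN V z) (hxz : ¬ IsSquare (x * z))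
    (hzT : ∀ v : HeightOneSpectrum (𝓞 K), ¬ Away K T v → LSq v z)
    (hF' : ∀ (L : Type) [Field L] [NumberField L] [Algebra K L] (θ : L),
      Module.finrank K L = 2 → θ ^ 2 = algebraMap K L ((x * z : Kˣ) : K) → D.HW a L)
    (F : Type) [Field F] [NumberField F] [Algebra K F] (θ : F) (hd : Module.finrank K F = 2)
    (hθ : θ ^ 2 = algebraMap K F (x : K)) : D.HW a F := by
  have hzs : ¬ IsSquare z := sgn_two hne hz.1
  -- the fields `K(√z)`, `K(√x, √z)`, `K(√(x z))`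
  obtain ⟨La, i1, i2, i3, θz, hLd, hθz⟩ := exists_quad K z hzs
  have hzx : ¬ IsSquare (((z : Kˣ) : K) * ((x : Kˣ) : K)) := by
    have h := sgn_unit hxz
    rwa [Units.val_mul, mul_comm] at h
  have hxL : ¬ IsSquare (algebraMap K La (x : K)) :=
    not_sq_quad (sgn_unit hzs) (sgn_unit hx) hzx θz hθz hLd
  obtain ⟨M, j1, j2, j3, η, hMd, hη⟩ := exists_quad La (Units.map (algebraMap K La).toMonoidHom x) (by
    rintro ⟨y, hy⟩
    refine hxL ⟨(y : La), ?_⟩
    have h := congrArg (fun u : Laˣ => (u : La)) hy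
    rw [← Units.val_mul]
    exact h)
  obtain ⟨F', k1, k2, k3, θ', hFd, hθ'⟩ := exists_quad K (x * z) hxz
  have hrel := rel43_w D hx hzs hxz hzT La hLd θz hθz M hMd η hη F hd θ hθ F' hFd θ' hθ'
  have hw := Pool.Agent.H73.AL.rel_w D hrel
  have hLam : ∀ s : ℂ, 3 / 2 < s.re → _ := fun s hs => Pool.Agent.H73.AL.rel_Lam D hTp hT ha hrel hs
  -- the functions
  obtain ⟨k, hk1, -, hk3, hk4⟩ := hwpm_all hTp hT D ha hfr hG hM K
  obtain ⟨χ, hχ1, hχ2, -, hχ4⟩ := hwpm_all hTp hT D ha hfr hG hM F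
  obtain ⟨α, hα1, -, hα3, hα4⟩ := HN z hz La θz hLd hθz
  obtain ⟨μ, hμ1, -, hμ3, hμ4⟩ := H4 z hz La θz hLd hθz M hMd
  obtain ⟨β, hβ1, -, hβ3, hβ4⟩ := hF' F' θ' hFd hθ'
  refine ⟨χ, hχ1, hχ2, ?_, hχ4⟩
  have hw2 : D.w K * (D.w K * (D.w M * 1)) = D.w La * (D.w F * (D.w F' * 1)) := hw
  have wK := Pool.Agent.H73.AL.w_sq D K
  have wM := Pool.Agent.H73.AL.w_sq D M
  have wL := Pool.Agent.H73.AL.w_sq D La
  have wF := Pool.Agent.H73.AL.w_sq D F
  have wG := Pool.Agent.H73.AL.w_sq D F'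
  refine sgn_fe hχ1 wM wL wF wG (sgn_alg wK wM wL wF wG hw2) hk3 hμ3 hα3 hβ3 ?_ ?_ ?_
  · refine sgn_id ((hk1.pow 2).mul hμ1) ((hα1.mul hχ1).mul hβ1) fun s hs => ?_
    have h1 : D.Lam a K s * (D.Lam a K s * (D.Lam a M s * 1)) =
        D.Lam a La s * (D.Lam a F s * (D.Lam a F' s * 1)) := hLam s hs
    rw [hk4 s hs, hμ4 s hs, hα4 s hs, hχ4 s hs, hβ4 s hs]
    linear_combination h1
  · intro s hs
    rw [hα4 s hs]
    exact Pool.Agent.H73.AL.Lam_ne D hTp hT ha La hs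
  · intro s hs
    rw [hβ4 s hs]
    exact Pool.Agent.H73.AL.Lam_ne D hTp hT ha F' hs


theorem sgn_pos {x : Kˣ} (hx : ¬ IsSquare x) (hp : ∀ φ : K →+* ℝ, 0 < φ (x : K)) (F : Type)
    [Field F] [NumberField F] [Algebra K F] (θ : F) (hd : Module.finrank K F = 2)
    (hθ : θ ^ 2 = algebraMap K F (x : K)) : D.HW a F := by
  obtain ⟨V, hne, hV, HN, H4⟩ := hG K
  obtain ⟨z, hz, hzx, hzT⟩ := exists_ax K T hTp (hT 2 Nat.prime_two (by norm_num)) V hV x
  have hkn : KN V (x * z) := by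
    refine ⟨fun v hv h => hzx v hv (by rwa [mul_comm] at h), fun φ => ?_⟩
    rw [Units.val_mul, map_mul]
    exact mul_neg_of_pos_of_neg (hp φ) (hz.2 φ)
  exact sgn_of hTp hT D ha hfr hG hM hne HN H4 hx hz (sgn_two hne hkn.1) hzT
    (fun L _ _ _ θ' h1 h2 => HN (x * z) hkn L θ' h1 h2) F θ hd hθ


theorem sgn_neg {x : Kˣ} (hx : ¬ IsSquare x) (hp : ∀ φ : K →+* ℝ, φ (x : K) < 0) (F : Type)
    [Field F] [NumberField F] [Algebra K F] (θ : F) (hd : Module.finrank K F = 2)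
    (hθ : θ ^ 2 = algebraMap K F (x : K)) : D.HW a F := by
  obtain ⟨V, hne, hV, HN, H4⟩ := hG K
  obtain ⟨z, hz, hzx, hzT⟩ := exists_ax K T hTp (hT 2 Nat.prime_two (by norm_num)) V hV x
  by_cases hxz : IsSquare (x * z)
  · obtain ⟨y, hy⟩ := hxz
    refine HN z hz F (θ * algebraMap K F ((y / x : Kˣ) : K)) hd ?_
    have h1 : z = x * (y / x) ^ 2 := by
      have h2 : x * (y / x) ^ 2 = y * y / x := by
        rw [div_pow, sq x, sq y, ← mul_div_assoc, mul_div_mul_left_eq_div]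
      rw [h2, ← hy, mul_div_cancel_left]
    rw [mul_pow, hθ, ← map_pow, ← map_mul]
    congr 1
    conv_rhs => rw [h1]
    rw [Units.val_mul, Units.val_pow_eq_pow_val]
  · refine sgn_of hTp hT D ha hfr hG hM hne HN H4 hx hz hxz hzT (fun L _ _ _ θ' h1 h2 => ?_) F θ hd hθ
    refine sgn_pos hTp hT D ha hfr hG hM hxz (fun φ => ?_) L θ' h1 h2
    rw [Units.val_mul, map_mul]
    exact mul_pos_of_neg_of_neg (hp φ) (hz.2 φ)

end Pool.Agent.THF
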